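import Pool.Agent.Work.MP_0e0306_pr.Main

/-!
# Uniform trace bounds for shifted fractional Gaussian noise covariance products
-/

open Matrix

namespace Pool.Agent.Results.MP_0e0306_pr.TraceBounds

/-- Autocovariance of fractional Gaussian noise with Hurst parameter `H`. -/
noncomputable def gammaH (H : ℝ) (j : ℤ) : ℝ :=
  (|(j : ℝ) + 1| ^ (2 * H) - 2 * |(j : ℝ)| ^ (2 * H) + |(j : ℝ) - 1| ^ (2 * H)) / 2

/-- Covariance matrix of `M` consecutive unit increments. -/
noncomputable def Sigma (H : ℝ) (M : ℕ) : Matrix (Fin M) (Fin M) ℝ :=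
  Matrix.of fun i j => gammaH H ((i : ℤ) - (j : ℤ))

/-- The `N × 2N` matrix sending a vector to its coordinates `k + 1, ..., k + N`
(coordinates are numbered from `0` in `Fin`). -/
def P (N k : ℕ) : Matrix (Fin N) (Fin (2 * N)) ℝ :=
  Matrix.of fun i j => if (j : ℕ) = k + (i : ℕ) then 1 else 0

/-- The matrix `A_k`. -/
noncomputable def A (H : ℝ) (N k : ℕ) : Matrix (Fin N) (Fin N) ℝ :=
  (Sigma H N)⁻¹ * P N k * Sigma H (2 * N) * (P N 0)ᵀ

lemma A_eq (H : ℝ) {N k : ℕ} (hk : k ≤ N) :
    A H N k = (FGN.TM (FGN.gam (2 * H)) N 0)⁻¹ * FGN.TM (FGN.gam (2 * H)) N k := by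
  have hS : Sigma H N = FGN.TM (FGN.gam (2 * H)) N 0 := by
    ext i j
    simp [Sigma, FGN.TM, gammaH, FGN.gam]
  have hP : P N k * Sigma H (2 * N) * (P N 0)ᵀ = FGN.TM (FGN.gam (2 * H)) N k := by
    ext i j
    have hi := i.isLt
    have hj := j.isLt
    rw [Matrix.mul_apply, Finset.sum_eq_single (⟨(j : ℕ), by omega⟩ : Fin (2 * N))]
    · rw [Matrix.mul_apply, Finset.sum_eq_single (⟨k + (i : ℕ), by omega⟩ : Fin (2 * N))]
      · simp only [P, Matrix.of_apply, Matrix.transpose_apply, zero_add, if_true, one_mul, mul_one,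
          Sigma, gammaH, FGN.TM, FGN.gam]
        push_cast
        have e : (k : ℝ) + (i : ℝ) - (j : ℝ) = (i : ℝ) - (j : ℝ) + (k : ℝ) := by ring
        rw [e]
      · intro m _ hm
        simp only [P, Matrix.of_apply]
        rw [if_neg, zero_mul]
        intro hc
        exact hm (Fin.ext hc)
      · simp
    · intro m _ hm
      simp only [P, Matrix.of_apply, Matrix.transpose_apply]
      rw [if_neg, mul_zero]
      intro hc
      apply hm
      ext
      simpa using hc
    · simp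
  rw [A, Matrix.mul_assoc, Matrix.mul_assoc, ← Matrix.mul_assoc (P N k), hP, hS]

/-- For every Hurst parameter `H ∈ (0, 1)` and every `N` the covariance matrix is positive
definite, and the traces of `A_k` and of `A_k A_l` are bounded by `3` and by `7`, for all
`k, l ∈ {1, ..., N}`. -/
theorem result (H : ℝ) (hH0 : 0 < H) (hH1 : H < 1) (N : ℕ) :
    (Sigma H N).PosDef ∧
    ∀ k l : ℕ, 1 ≤ k → k ≤ N → 1 ≤ l → l ≤ N →
      |(A H N k).trace| ≤ 3 ∧ |(A H N k * A H N l).trace| ≤ 7 := by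
  have hS : Sigma H N = FGN.TM (FGN.gam (2 * H)) N 0 := by
    ext i j
    simp [Sigma, FGN.TM, gammaH, FGN.gam]
  have h := FGN.main_bounds (a := 2 * H) (by linarith) (by linarith) N
  refine ⟨by rw [hS]; exact h.1, fun k l hk hkN hl hlN => ?_⟩
  rw [A_eq H hkN, A_eq H hlN]
  exact h.2 k l hk hl

end Pool.Agent.Results.MP_0e0306_pr.TraceBounds
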